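import Mathlib

namespace Pool.Agent.H.MP_597c46_an

open Set Filter Topology

theorem not_sigma_irr (K : ℕ → Set ℝ) (hK : ∀ i, IsClosed (K i))
    (h : (⋃ i, K i) = {t | Irrational t}) : False := by
  have hm : IsMeagre {t : ℝ | Irrational t} := by
    rw [← h]
    refine isMeagre_iUnion fun i => ?_
    refine IsNowhereDense.isMeagre ?_
    rw [(hK i).isNowhereDense_iff]
    by_contra hne
    obtain ⟨q, hq⟩ := Rat.denseRange_cast.exists_mem_open isOpen_interior
      (Set.nonempty_iff_ne_empty.2 hne)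
    have : (q : ℝ) ∈ {t : ℝ | Irrational t} := by
      rw [← h]; exact mem_iUnion.2 ⟨i, interior_subset hq⟩
    exact Rat.not_irrational q this
  have hr : {t : ℝ | Irrational t} ∈ residual ℝ := eventually_residual_irrational
  have h0 : (∅ : Set ℝ) ∈ residual ℝ := by
    have := inter_mem hr hm
    rwa [inter_compl_self] at this
  have := dense_of_mem_residual h0
  exact absurd this.nonempty (by simp)

theorem core (n : ℕ) (hn : 2 ≤ n) :
    ∃ C : Set (EuclideanSpace ℝ (Fin n)), C.Nonempty ∧ Convex ℝ C ∧ ¬ IsSigmaCompact C := by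
  set i0 : Fin n := ⟨0, by omega⟩ with hi0
  set i1 : Fin n := ⟨1, by omega⟩ with hi1
  have hne : i0 ≠ i1 := by simp [hi0, hi1]
  refine ⟨{x | x i0 ^ 2 < x i1 ∨ (x i0 ^ 2 = x i1 ∧ Irrational (x i0))}, ?_, ?_, ?_⟩
  · refine ⟨EuclideanSpace.single i1 1, Or.inl ?_⟩
    simp [hne]
  · intro x hx y hy a b ha hb hab
    have hx' : x i0 ^ 2 ≤ x i1 := hx.elim le_of_lt fun h => h.1.le
    have hy' : y i0 ^ 2 ≤ y i1 := hy.elim le_of_lt fun h => h.1.le
    rcases ha.eq_or_lt with rfl | ha'
    · have : b = 1 := by linarith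
      subst this; simpa using hy
    rcases hb.eq_or_lt with rfl | hb'
    · have : a = 1 := by linarith
      subst this; simpa using hx
    show (a * x i0 + b * y i0) ^ 2 < a * x i1 + b * y i1 ∨
      ((a * x i0 + b * y i0) ^ 2 = a * x i1 + b * y i1 ∧ Irrational (a * x i0 + b * y i0))
    have key : (a * x i0 + b * y i0) ^ 2
        = a * x i0 ^ 2 + b * y i0 ^ 2 - a * b * (x i0 - y i0) ^ 2 := by
      have : b = 1 - a := by linarith
      subst this; ring
    have h1 : a * x i0 ^ 2 ≤ a * x i1 := mul_le_mul_of_nonneg_left hx' ha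
    have h2 : b * y i0 ^ 2 ≤ b * y i1 := mul_le_mul_of_nonneg_left hy' hb
    by_cases hxy : x i0 = y i0
    · rcases hx with hx | hx
      · left
        have : a * x i0 ^ 2 < a * x i1 := mul_lt_mul_of_pos_left hx ha'
        rw [key, hxy]; rw [hxy] at this; nlinarith
      · have hz : a * x i0 + b * y i0 = x i0 := by rw [← hxy, ← add_mul, hab, one_mul]
        rcases h2.eq_or_lt with h2 | h2
        · right
          refine ⟨?_, by rw [hz]; exact hx.2⟩
          rw [key, ← h2, ← hx.1, hxy]; ring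
        · left
          rw [key, hxy]; rw [hxy] at h1; nlinarith
    · left
      have : 0 < a * b * (x i0 - y i0) ^ 2 := by
        have : x i0 - y i0 ≠ 0 := sub_ne_zero.2 hxy
        positivity
      rw [key]; linarith
  · rintro ⟨K, hK, hU⟩
    set γ : ℝ → EuclideanSpace ℝ (Fin n) := fun t =>
      t • EuclideanSpace.single i0 (1:ℝ) + t ^ 2 • EuclideanSpace.single i1 (1:ℝ) with hγ
    have hc : Continuous γ := by rw [hγ]; fun_prop
    have h0 : ∀ t, γ t i0 = t := by intro t; simp [hγ, hne]
    have h1 : ∀ t, γ t i1 = t ^ 2 := by intro t; simp [hγ, hne.symm]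
    refine not_sigma_irr (fun i => γ ⁻¹' K i) (fun i => (hK i).isClosed.preimage hc) ?_
    rw [← preimage_iUnion, hU]
    ext t
    simp [h0, h1]

theorem proj {E : Type*} [TopologicalSpace E] [SigmaCompactSpace E] {C : Set E}
    (hC : ¬ IsSigmaCompact C) (G : Set (E × E)) (hG : IsClosed G) :
    Prod.fst '' G ≠ C ∧ Prod.snd '' G ≠ C := by
  have h : IsSigmaCompact G := isSigmaCompact_univ.of_isClosed_subset hG (subset_univ _)
  exact ⟨fun e => hC (e ▸ h.image continuous_fst), fun e => hC (e ▸ h.image continuous_snd)⟩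

end Pool.Agent.H.MP_597c46_an
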